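import Mathlib

/-! Lazard's symmetric cocycle lemma, for values in an additive group killed by `p`. -/

namespace LZ6

variable {p : ℕ} {V : Type*} [AddCommGroup V]

/-- multiples only depend on the class mod `p` -/
theorem nsmul_congr (hV : ∀ v : V, p • v = 0) {a b : ℕ} (h : a ≡ b [MOD p]) (v : V) :
    a • v = b • v := by
  have h1 : ∀ a : ℕ, a • v = (a % p) • v := by
    intro a
    conv_lhs => rw [← Nat.div_add_mod a p]
    rw [add_nsmul, mul_nsmul, hV, smul_zero, zero_add]
  rw [h1 a, h1 b, h]

variable [hp : Fact p.Prime]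

/-- cancel a unit mod `p` -/
theorem nsmul_cancel (hV : ∀ v : V, p • v = 0) {a : ℕ} (ha : ¬ p ∣ a) {v w : V}
    (h : a • v = a • w) : v = w := by
  have hco : Nat.Coprime a p := ((Nat.Prime.coprime_iff_not_dvd hp.out).2 ha).symm
  obtain ⟨b, -, hb⟩ := Nat.exists_mul_mod_eq_one_of_coprime hco hp.out.one_lt
  have h1 : ∀ v : V, (b * a) • v = v := by
    intro v
    have h2 : b * a ≡ 1 [MOD p] := by
      unfold Nat.ModEq
      rw [mul_comm, hb, Nat.mod_eq_of_lt hp.out.one_lt]
    rw [nsmul_congr hV h2, one_smul]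
  have h3 : b • (a • v) = b • (a • w) := by rw [h]
  rw [← mul_smul, ← mul_smul, h1, h1] at h3
  exact h3

/-- divide by a unit mod `p` -/
theorem exists_nsmul (hV : ∀ v : V, p • v = 0) {a : ℕ} (ha : ¬ p ∣ a) (v : V) :
    ∃ w : V, a • w = v := by
  have hco : Nat.Coprime a p := ((Nat.Prime.coprime_iff_not_dvd hp.out).2 ha).symm
  obtain ⟨b, -, hb⟩ := Nat.exists_mul_mod_eq_one_of_coprime hco hp.out.one_lt
  refine ⟨b • v, ?_⟩
  have h2 : a * b ≡ 1 [MOD p] := by
    unfold Nat.ModEq
    rw [hb, Nat.mod_eq_of_lt hp.out.one_lt]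
  rw [← mul_smul, nsmul_congr hV h2, one_smul]

theorem lucas (a b : ℕ) : (p * a).choose (p * b) ≡ a.choose b [MOD p] := by
  have h := @Choose.choose_modEq_choose_mod_mul_choose_div_nat (p * a) (p * b) p hp
  simpa [Nat.mul_div_cancel_left _ hp.out.pos] using h

theorem lucas0 (a i : ℕ) (hi : ¬ p ∣ i) : (p * a).choose i ≡ 0 [MOD p] := by
  have h := @Choose.choose_modEq_choose_mod_mul_choose_div_nat (p * a) i p hp
  have h1 : 0 < i % p := Nat.pos_of_ne_zero fun h => hi (Nat.dvd_of_mod_eq_zero h)
  have h2 : (0 : ℕ).choose (i % p) = 0 := Nat.choose_eq_zero_of_lt h1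
  simpa [h2] using h

/-- `C(pa - 1, pb - 1) = C(a - 1, b - 1)` mod `p` -/
theorem lucas1 (a b : ℕ) (ha : 0 < a) (hb : 0 < b) :
    (p * a - 1).choose (p * b - 1) ≡ (a - 1).choose (b - 1) [MOD p] := by
  have h := @Choose.choose_modEq_choose_mod_mul_choose_div_nat (p * a - 1) (p * b - 1) p hp
  have h1 : ∀ a : ℕ, 0 < a → (p * a - 1) % p = p - 1 ∧ (p * a - 1) / p = a - 1 := by
    intro a ha
    obtain ⟨a', rfl⟩ : ∃ a', a = a' + 1 := ⟨a - 1, by omega⟩
    have hpp := hp.out.pos
    have e : p * (a' + 1) - 1 = (p - 1) + p * a' := by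
      rw [mul_add]; omega
    rw [e]
    refine ⟨?_, ?_⟩
    · rw [Nat.add_mul_mod_self_left, Nat.mod_eq_of_lt (by omega)]
    · rw [Nat.add_mul_div_left _ _ hpp, Nat.div_eq_of_lt (by omega)]; simp
  rw [(h1 a ha).1, (h1 a ha).2, (h1 b hb).1, (h1 b hb).2, Nat.choose_self, one_mul] at h
  exact h

theorem mul_choose' (n i : ℕ) (hn : 0 < n) (hi : 0 < i) :
    i * n.choose i = n * (n - 1).choose (i - 1) := by
  obtain ⟨n', rfl⟩ : ∃ n', n = n' + 1 := ⟨n - 1, by omega⟩
  obtain ⟨i', rfl⟩ : ∃ i', i = i' + 1 := ⟨i - 1, by omega⟩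
  simp only [Nat.add_sub_cancel]
  rw [Nat.add_one_mul_choose_eq]; ring

/-- a power of `p` dividing `i * D` with `i` small divides `D` up to the valuation of `i` -/
theorem pow_dvd_of {m i : ℕ} {D : ℤ} (hi : 0 < i) (him : i < p ^ m)
    (h : (p : ℤ) ^ (m + 1) ∣ (i : ℤ) * D) : (p : ℤ) ^ 2 ∣ D := by
  obtain ⟨v, i', hi', rfl⟩ := Nat.exists_eq_pow_mul_and_not_dvd hi.ne' p hp.out.ne_one
  have hv : v < m := by
    have h1 : 0 < i' := by
      rcases Nat.eq_zero_or_pos i' with h | h
      · subst h; simp at hi'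
      · exact h
    have h2 : p ^ v < p ^ m := lt_of_le_of_lt (Nat.le_mul_of_pos_right _ h1) him
    exact (Nat.pow_lt_pow_iff_right hp.out.one_lt).1 h2
  have h3 : (p : ℤ) ^ 2 * (p : ℤ) ^ v ∣ (i' * D) * (p : ℤ) ^ v := by
    have h4 : (p : ℤ) ^ (2 + v) ∣ (p : ℤ) ^ (m + 1) := pow_dvd_pow _ (by omega)
    refine dvd_trans ?_ (dvd_trans h ?_)
    · rw [← pow_add]; exact h4
    · push_cast; exact dvd_of_eq (by ring)
  have hp0 : (p : ℤ) ^ v ≠ 0 := pow_ne_zero _ (by exact_mod_cast hp.out.ne_zero)
  have h5 : (p : ℤ) ^ 2 ∣ (i' : ℤ) * D := (mul_dvd_mul_iff_right hp0).1 h3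
  have h6 : IsCoprime ((p : ℤ) ^ 2) (i' : ℤ) := by
    apply IsCoprime.pow_left
    exact_mod_cast (Nat.isCoprime_iff_coprime.2 ((Nat.Prime.coprime_iff_not_dvd hp.out).2 hi'))
  exact h6.dvd_of_dvd_mul_left h5

/-- `C(p n, p i)/p = C(n, i)/p` mod `p` for `n = p ^ m` -/
theorem choose_div {m i : ℕ} (hi : 0 < i) (him : i < p ^ m) :
    (p ^ (m + 1)).choose (p * i) / p ≡ (p ^ m).choose i / p [MOD p] := by
  have hpp := hp.out.pos
  have hd1 : p ∣ (p ^ (m + 1)).choose (p * i) := by
    apply hp.out.dvd_choose_pow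
    · positivity
    · intro h; rw [pow_succ, mul_comm (p ^ m)] at h
      exact him.ne (Nat.eq_of_mul_eq_mul_left hpp h)
  have hd2 : p ∣ (p ^ m).choose i := hp.out.dvd_choose_pow hi.ne' him.ne
  have hn : 0 < p ^ m := pow_pos hpp m
  have e1 : i * (p ^ (m + 1)).choose (p * i) = p ^ m * (p ^ (m + 1) - 1).choose (p * i - 1) := by
    have h := mul_choose' (p ^ (m + 1)) (p * i) (pow_pos hpp _) (by positivity)
    apply Nat.eq_of_mul_eq_mul_left hpp
    calc p * (i * (p ^ (m + 1)).choose (p * i)) = p * i * (p ^ (m + 1)).choose (p * i) := by ring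
      _ = p ^ (m + 1) * (p ^ (m + 1) - 1).choose (p * i - 1) := h
      _ = _ := by rw [pow_succ]; ring
  have e2 : i * (p ^ m).choose i = p ^ m * (p ^ m - 1).choose (i - 1) := mul_choose' _ _ hn hi
  have e3 : (p ^ (m + 1) - 1).choose (p * i - 1) ≡ (p ^ m - 1).choose (i - 1) [MOD p] := by
    have := lucas1 (p := p) (p ^ m) i hn hi
    rwa [show p * p ^ m = p ^ (m + 1) by rw [pow_succ]; ring] at this
  set A := (p ^ (m + 1)).choose (p * i) with hA
  set B := (p ^ m).choose i with hB
  have e4 : (p : ℤ) ^ (m + 1) ∣ (i : ℤ) * ((A : ℤ) - B) := by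
    have e5 : (p : ℤ) ∣ ((p ^ (m + 1) - 1).choose (p * i - 1) : ℤ)
        - ((p ^ m - 1).choose (i - 1) : ℤ) := by
      have := (Nat.modEq_iff_dvd.1 e3.symm)
      exact_mod_cast this
    obtain ⟨c, hc⟩ := e5
    refine ⟨c, ?_⟩
    have e6 : (i : ℤ) * A = (p : ℤ) ^ m * ((p ^ (m + 1) - 1).choose (p * i - 1) : ℤ) := by
      exact_mod_cast e1
    have e7 : (i : ℤ) * B = (p : ℤ) ^ m * ((p ^ m - 1).choose (i - 1) : ℤ) := by
      exact_mod_cast e2
    rw [mul_sub, e6, e7, ← mul_sub, hc]; ring
  have e8 := pow_dvd_of hi him e4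
  obtain ⟨A', hA'⟩ := hd1
  obtain ⟨B', hB'⟩ := hd2
  have hA1 : A / p = A' := by rw [hA']; exact Nat.mul_div_cancel_left _ hpp
  have hB1 : B / p = B' := by rw [hB']; exact Nat.mul_div_cancel_left _ hpp
  rw [hA1, hB1]
  apply Nat.ModEq.symm
  apply Nat.modEq_iff_dvd.2
  have hp0 : (p : ℤ) ≠ 0 := by exact_mod_cast hp.out.ne_zero
  rw [hA', hB'] at e8
  push_cast at e8
  rw [← mul_sub, pow_two] at e8
  exact (mul_dvd_mul_iff_left hp0).1 e8

/-- `p ^ 2` divides `C(p ^ (m+1), i)` for `m ≥ 1`, `i` prime to `p` -/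
theorem choose_div0 {m i : ℕ} (hm : 1 ≤ m) (hi : ¬ p ∣ i) :
    (p ^ (m + 1)).choose i / p ≡ 0 [MOD p] := by
  have hpp := hp.out.pos
  have hi0 : 0 < i := by
    rcases Nat.eq_zero_or_pos i with h | h
    · subst h; simp at hi
    · exact h
  have e := mul_choose' (p ^ (m + 1)) i (pow_pos hpp _) hi0
  have h1 : p ^ (m + 1) ∣ (p ^ (m + 1)).choose i := by
    have : Nat.Coprime (p ^ (m + 1)) i :=
      Nat.Coprime.pow_left _ ((Nat.Prime.coprime_iff_not_dvd hp.out).2 hi)
    exact this.dvd_of_dvd_mul_left ⟨_, e⟩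
  have h2 : p * p ∣ (p ^ (m + 1)).choose i := by
    refine dvd_trans ?_ h1
    rw [← pow_two]; exact pow_dvd_pow _ (by omega)
  obtain ⟨c, hc⟩ := h2
  rw [hc, mul_assoc, Nat.mul_div_cancel_left _ hpp]
  exact (Nat.modEq_zero_iff_dvd).2 ⟨c, rfl⟩

/-- **Lazard's lemma**: symmetric additive `2`-cocycles in characteristic `p`; `a i` is the
coefficient of `x ^ i y ^ (n - i)`. -/
theorem lazard (hV : ∀ v : V, p • v = 0) : ∀ (n : ℕ), 2 ≤ n → ∀ (a : ℕ → V),
    (∀ i, 0 < i → i < n → a (n - i) = a i) →
    (∀ i j, 0 < i → 0 < j → i + j < n → (i + j).choose i • a (i + j) = (n - i).choose j • a i) →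
    ((∃ m, n = p ^ m) ∧ ∃ c : V, ∀ i, 0 < i → i < n → a i = (n.choose i / p) • c) ∨
    ((¬ ∃ m, n = p ^ m) ∧ ∃ c : V, ∀ i, 0 < i → i < n → a i = n.choose i • c) := by
  intro n
  induction n using Nat.strong_induction_on with
  | _ n ih =>
    intro hn a hs hc
    have hpp := hp.out.pos
    -- the relation with `i = 1`
    have h1 : ∀ i, 0 < i → i < n → i • a i = (n - 1).choose (i - 1) • a 1 := by
      intro i hi hin
      rcases Nat.lt_or_ge 1 i with h | h
      · have := hc 1 (i - 1) one_pos (by omega) (by omega)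
        rw [show 1 + (i - 1) = i by omega, Nat.choose_one_right] at this
        exact this
      · have : i = 1 := by omega
        subst this; simp
    by_cases hpn : p ∣ n
    · obtain ⟨n', rfl⟩ := hpn
      have hn' : 0 < n' := by
        rcases Nat.eq_zero_or_pos n' with h | h
        · subst h; simp at hn
        · exact h
      rcases Nat.lt_or_ge 1 n' with h2 | h2
      · -- `n' ≥ 2`
        have ha1 : a 1 = 0 := by
          have e1 := h1 p hpp (by nlinarith [hp.out.pos])
          rw [hV] at e1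
          have e2 := lucas1 (p := p) n' 1 hn' one_pos
          rw [mul_one] at e2
          have e3 : (n' - 1).choose (1 - 1) = 1 := by simp
          rw [e3] at e2
          rw [nsmul_congr hV e2, one_smul] at e1
          exact e1.symm
        have ha0 : ∀ i, 0 < i → i < p * n' → ¬ p ∣ i → a i = 0 := by
          intro i hi hin hpi
          have := h1 i hi hin
          rw [ha1, smul_zero] at this
          exact nsmul_cancel hV hpi (by rw [this, smul_zero])
        have hlt : n' < p * n' := by nlinarith [hp.out.two_le]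
        have ih' := ih n' hlt (by omega) (fun i => a (p * i)) (by
            intro i hi hin
            show a (p * (n' - i)) = a (p * i)
            rw [Nat.mul_sub]
            exact hs (p * i) (by positivity) ((Nat.mul_lt_mul_left hpp).2 hin)) (by
            intro i j hi hj hij
            show (i + j).choose i • a (p * (i + j)) = (n' - i).choose j • a (p * i)
            have e := hc (p * i) (p * j) (by positivity) (by positivity)
              (by rw [← mul_add]; exact (Nat.mul_lt_mul_left hpp).2 hij)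
            rw [← mul_add, ← Nat.mul_sub] at e
            rw [nsmul_congr hV (lucas _ _), nsmul_congr hV (lucas _ _)] at e
            exact e)
        rcases ih' with ⟨⟨m, hm⟩, c, hcc⟩ | ⟨hm, c, hcc⟩
        · left
          have hm1 : 1 ≤ m := by
            rcases Nat.eq_zero_or_pos m with h | h
            · subst h; simp at hm; omega
            · exact h
          have hpow : p * n' = p ^ (m + 1) := by rw [hm, pow_succ]; ring
          refine ⟨⟨m + 1, hpow⟩, c, ?_⟩
          intro i hi hin
          by_cases hpi : p ∣ i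
          · obtain ⟨j, rfl⟩ := hpi
            have hj : 0 < j := Nat.pos_of_mul_pos_left hi |> fun h => by
              rcases Nat.eq_zero_or_pos j with h' | h'
              · subst h'; simp at hi
              · exact h'
            have hjn : j < n' := lt_of_mul_lt_mul_left hin (Nat.zero_le p)
            have e := hcc j hj hjn
            rw [hpow]
            rw [show a (p * j) = (n'.choose j / p) • c from e]
            apply nsmul_congr hV
            rw [hm]
            exact (choose_div hj (hm ▸ hjn)).symm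
          · rw [ha0 i hi hin hpi, hpow, nsmul_congr hV (choose_div0 hm1 hpi), zero_smul]
        · right
          refine ⟨?_, c, ?_⟩
          · rintro ⟨k, hk⟩
            rcases Nat.eq_zero_or_pos k with h | h
            · subst h; rw [pow_zero] at hk; omega
            · obtain ⟨k', rfl⟩ : ∃ k', k = k' + 1 := ⟨k - 1, by omega⟩
              apply hm
              refine ⟨k', ?_⟩
              rw [pow_succ, mul_comm (p ^ k')] at hk
              exact Nat.eq_of_mul_eq_mul_left hpp hk
          · intro i hi hin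
            by_cases hpi : p ∣ i
            · obtain ⟨j, rfl⟩ := hpi
              have hj : 0 < j := by
                rcases Nat.eq_zero_or_pos j with h' | h'
                · subst h'; simp at hi
                · exact h'
              have hjn : j < n' := lt_of_mul_lt_mul_left hin (Nat.zero_le p)
              rw [show a (p * j) = n'.choose j • c from hcc j hj hjn]
              exact nsmul_congr hV (lucas _ _).symm c
            · rw [ha0 i hi hin hpi, nsmul_congr hV (lucas0 n' i hpi), zero_smul]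
      · -- `n = p`
        have : n' = 1 := by omega
        subst this
        left
        refine ⟨⟨1, by simp⟩, a 1, ?_⟩
        intro i hi hin
        rw [mul_one] at hin ⊢
        have hpi : ¬ p ∣ i := fun h => absurd (Nat.le_of_dvd hi h) (by omega)
        apply nsmul_cancel hV hpi
        rw [h1 i hi (by omega), mul_one, ← mul_smul]
        congr 1
        have hd : p ∣ p.choose i := hp.out.dvd_choose_self hi.ne' hin
        obtain ⟨c, hcc⟩ := hd
        have e := mul_choose' p i hpp hi
        rw [hcc, Nat.mul_div_cancel_left _ hpp]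
        rw [hcc] at e
        apply Nat.eq_of_mul_eq_mul_left hpp
        rw [← e]; ring
    · -- `p ∤ n`
      right
      refine ⟨?_, ?_⟩
      · rintro ⟨m, hm⟩
        rcases Nat.eq_zero_or_pos m with h | h
        · subst h; rw [pow_zero] at hm; omega
        · exact hpn (hm ▸ dvd_pow_self p h.ne')
      obtain ⟨c, hcc⟩ := exists_nsmul hV hpn (a 1)
      have key : ∀ i, 0 < i → i < n → ¬ p ∣ i → a i = n.choose i • c := by
        intro i hi hin hpi
        apply nsmul_cancel hV hpi
        rw [h1 i hi hin, ← hcc, ← mul_smul, ← mul_smul]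
        congr 1
        rw [mul_choose' n i (by omega) hi]; ring
      refine ⟨c, fun i hi hin => ?_⟩
      by_cases hpi : p ∣ i
      · have h3 : ¬ p ∣ n - i := fun h => hpn (by
          have := Nat.dvd_add h hpi
          rwa [Nat.sub_add_cancel hin.le] at this)
        rw [← hs i hi hin, key (n - i) (by omega) (by omega) h3, Nat.choose_symm hin.le]
      · exact key i hi hin hpi

end LZ6
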